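import Pool.Agent.D0H41.SG.Final
import Pool.Agent.D0H19.SL.Near
import Pool.Agent.D0H19.SL.Fin
import Pool.Agent.D0H51.SL.Trz
import Pool.Agent.D0H10.SL.Loc2
import Pool.Agent.D0H19.SL.Ten
import Pool.Agent.D0H10.SL.Prim

/-!
# Many `S_n`-fields with given signature and arbitrary given completions at finitely many primes

For all large `n`, every signature `(r₁, r₂)`, `r₁ + 2 r₂ = n`, different primes `p_1, ..., p_s` and ANY etale algebras
`A_i` over `ℚ_(p_i)` of dimension `n` (commutative and reduced; so products of finite extensions of `ℚ_(p_i)` with degrees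
of sum `n`) there are at least

  `X ^ (1 / 2 + 4 / (3 n) - 16 (log n)^2 / n^2)`   for all large `X`

fields `L` of degree `n` over `ℚ` with Galois group `S_n`, `|disc| ≤ X` and signature `(r₁, r₂)` such that
`L ⊗ ℚ_(p_i) ≅ A_i` for all `i`. So the splitting, the ramification and the completions of `L` at finitely many primes
can be prescribed without any loss in the lower bound.

The proof is the one of `MP_af4c59_nt.SymmetricGroupLowerBound` (monic polynomials `f` with coefficients
`|a_i| ≤ C Y ^ (n - i)` such that `r ^ 2 ∣ f(m)`, `r ∣ f'(m)` for some `m` and a prime `r` of size `Y ^ (n ^ 2 / 8)`, in a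
class modulo `q` which forces the group `S_n`), with new ingredients: (1) (project SG of helper41) the geometry of numbers
gives as many `f` of this kind near every real polynomial with coefficients `≤ K Y ^ (n - i)`, at a distance
`≤ C Y ^ (n - i)` with `C` independent of `K`; with `K` large, `f` has the signature of a given real polynomial.
(2) The prime factors of `q` are larger than the `p_i`, and the class modulo `q` is combined with classes modulo powers of
the `p_i`. (3) (project SL) `A_i = ℚ_(p_i)[x] / (F_i)` for a monic `F_i` with integral coefficients and without term of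
degree `n - 1` (primitive element, linear substitution), and by the implicit function theorem (Krasner's lemma for etale
algebras) `ℚ_(p_i)[x] / (f) ≅ A_i` for all `f` close to `F_i`.

Authors: helper19, helper41, with helper51 (linear substitution, approximation, tensor products), helper10 (primitive
elements), helper87 (family near a given polynomial), helper30 (`S_n` with large primes), helper52 (Chinese remainders),
helper34 (signature), helper12 (embeddings and roots).
-/

set_option autoImplicit false

open TensorProduct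

namespace Pool.Agent.Results.MP_bf81c2_nt.PrescribedCompletions

/-- The fields `L` of degree `n` inside the algebraic closure of `ℚ` whose discriminant has absolute value
at most `X`, for which the Galois group of `ℚ` acts on the set of embeddings of `L` in the algebraic
closure as the full symmetric group, which have exactly `r₁` real embeddings, and for which `ℚ_(p i) ⊗ L` is isomorphic
to the given `ℚ_(p i)`-algebra `A i` for all `i`. -/
def Fields (n r₁ : ℕ) {ι : Type} (p : ι → ℕ) [∀ i, Fact (p i).Prime] (A : ι → Type) [∀ i, CommRing (A i)]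
    [∀ i, Algebra ℚ_[p i] (A i)] (X : ℝ) : Set (IntermediateField ℚ (AlgebraicClosure ℚ)) :=
  {L | Module.finrank ℚ L = n ∧
    (∃ h : NumberField L, ((|@NumberField.discr L _ h| : ℤ) : ℝ) ≤ X) ∧
    (∀ τ : Equiv.Perm (L →ₐ[ℚ] AlgebraicClosure ℚ),
      ∃ σ : AlgebraicClosure ℚ ≃ₐ[ℚ] AlgebraicClosure ℚ,
        ∀ φ : L →ₐ[ℚ] AlgebraicClosure ℚ, τ φ = σ.toAlgHom.comp φ) ∧
    Nat.card (L →+* ℝ) = r₁ ∧
    ∀ i, Nonempty (ℚ_[p i] ⊗[ℚ] L ≃ₐ[ℚ_[p i]] A i)}

/-- For all large `n`, all `r₁ ≤ n` with `n - r₁` even, all finite families of different primes `p i`, all commutative and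
reduced `ℚ_(p i)`-algebras `A i` of dimension `n` and all `X ≥ X₀` the number of the fields of degree `n` with Galois
group `S_n`, discriminant of absolute value at most `X`, exactly `r₁` real embeddings and `ℚ_(p i) ⊗ L ≅ A i` for all `i` is
finite and at least `X ^ (1 / 2 + 4 / (3 n) - 16 (log n)^2 / n^2)`. -/
theorem result : ∃ n₀ : ℕ, ∀ n : ℕ, n₀ ≤ n → ∀ r₁ : ℕ, r₁ ≤ n → Even (n - r₁) →
    ∀ (ι : Type) [Finite ι] (p : ι → ℕ) [∀ i, Fact (p i).Prime], Function.Injective p →
    ∀ (A : ι → Type) [∀ i, CommRing (A i)] [∀ i, Algebra ℚ_[p i] (A i)], (∀ i, IsReduced (A i)) →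
    (∀ i, Module.finrank ℚ_[p i] (A i) = n) → ∃ X₀ : ℝ, ∀ X : ℝ, X₀ ≤ X →
      (Fields n r₁ p A X).Finite ∧
      X ^ ((1 : ℝ) / 2 + 4 / (3 * (n : ℝ)) - 16 * (Real.log n) ^ 2 / (n : ℝ) ^ 2) ≤
        ((Fields n r₁ p A X).ncard : ℝ) :=
  Pool.Agent.D0H19.SL.final (Pool.Agent.D0H41.SG.t_EXPG Pool.Agent.D0H41.SG.verg) Pool.Agent.D0H41.SG.famg
    Pool.Agent.D0H30.SG.t_SN2 Pool.Agent.D0H34.SG.t_REAL Pool.Agent.D0H12.SG.t_EMB Pool.Agent.D0H52.SG.t_CRT
    (Pool.Agent.D0H10.SL.t_LOC2 Pool.Agent.D0H19.SL.t_NEAR Pool.Agent.D0H51.SL.t_TRZ)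
    Pool.Agent.D0H19.SL.t_TEN Pool.Agent.D0H10.SL.t_PRIM

end Pool.Agent.Results.MP_bf81c2_nt.PrescribedCompletions
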