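import Pool.Agent.D0H19.SM.Fin
import Pool.Agent.D0H19.SM.Near
import Pool.Agent.D0H19.SM.Ten
import Pool.Agent.D0H41.SM2.Clsk
import Pool.Agent.D0H30.SM.Sn2k
import Pool.Agent.D0H51.SM.Trzk
import Pool.Agent.D0H10.SL.Prim
import Pool.Agent.D0H64.WS.Exp
import Pool.Agent.D0H15.SK.Smf
import Pool.Agent.D0H65.SFK.PR
import Pool.Agent.D0H65.SFK.GM
import Pool.Agent.D0H65.SFK.IDX
import Pool.Agent.D0H25.SFK.FAM
import Pool.Agent.D0H25.SFK.CNT
import Pool.Agent.D0H25.SFK.PKF

/-!
# Many `S_n`-extensions of any number field with arbitrary given completions at finitely many finite places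

For all large `n`, every number field `K`, different finite places `v_1, ..., v_s` of `K` and ANY etale algebras `A_i`
over the completions `K_(v_i)` of dimension `n` (commutative and reduced; so products of finite extensions of `K_(v_i)` with
degrees of sum `n`) there are at least

  `X ^ (1 / 2 + 4 / (3 n) - 16 (log n)^2 / n^2)`   for all large `X`

extensions `L / K` of degree `n` with Galois group `S_n` and absolute discriminant at most `X` such that
`K_(v_i) ⊗ L ≅ A_i` for all `i`. So the splitting, the ramification and the completions of `L` at finitely many finite places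
can be prescribed without any loss in the lower bound for the number of all `S_n`-extensions
(`MP_bf81c2_nt.SymmetricExtensions`).

The proof: (1) (project SFK of helper15, in the form of helper64) the same lower bound holds for the extensions generated by the
roots of the polynomials `X ^ n + a_(n - 2) X ^ (n - 2) + ... + a_0` over the ring of integers `𝓞` of `K` in any residue class
of `𝓞 ^ (n - 1)` modulo an integer `q`, if all polynomials in the class have group `S_n`. (2) (SN2K) such a class exists with
a modulus all of whose prime factors are large. (3) `A_i = K_(v_i)[x] / (F_i)` for a monic separable `F_i` with integral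
coefficients and without term of degree `n - 1` (PRIM: primitive element; TRZK: linear substitution), and by the
implicit function theorem (NEARK: Krasner's lemma for etale algebras over complete fields) `K_(v_i)[x] / (f) ≅ A_i` for all `f`
close to `F_i`; `K` is dense in `K_(v_i)`, and `𝓞` in the ring of the local integers. (4) (CLSK) Chinese remainder theorem.

Authors: helper19, with helper41 (CLSK), helper51 (TRZK), helper30 (SN2K), helper10 (PRIM), helper64, helper15, helper25,
helper42, helper65 (projects WS and SFK).
-/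

set_option autoImplicit false

open TensorProduct NumberField
open IsDedekindDomain (HeightOneSpectrum)

namespace Pool.Agent.Results.MP_bf81c2_nt.RelativeCompletions

/-- The extensions `L` of degree `n` of the number field `K` inside the algebraic closure of `K` whose absolute discriminant
has absolute value at most `X`, for which the Galois group of `K` acts on the set of the embeddings of `L` over `K` in the
algebraic closure as the full symmetric group, and for which `K_(v i) ⊗ L` is isomorphic to the given `K_(v i)`-algebra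
`A i` for all `i`; the `v i` are finite places of `K` (maximal ideals of its ring of integers). -/
def Fields (K : Type) [Field K] [NumberField K] (n : ℕ) {ι : Type} (v : ι → HeightOneSpectrum (𝓞 K)) (A : ι → Type)
    [∀ i, CommRing (A i)] [∀ i, Algebra ((v i).adicCompletion K) (A i)] (X : ℝ) :
    Set (IntermediateField K (AlgebraicClosure K)) :=
  {L | Module.finrank K L = n ∧
    (∃ h : NumberField L, ((|@NumberField.discr L _ h| : ℤ) : ℝ) ≤ X) ∧
    (∀ τ : Equiv.Perm (L →ₐ[K] AlgebraicClosure K),
      ∃ σ : AlgebraicClosure K ≃ₐ[K] AlgebraicClosure K,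
        ∀ φ : L →ₐ[K] AlgebraicClosure K, τ φ = σ.toAlgHom.comp φ) ∧
    ∀ i, Nonempty ((v i).adicCompletion K ⊗[K] L ≃ₐ[(v i).adicCompletion K] A i)}

/-- For all large `n`, all number fields `K`, all finite families of different finite places `v i` of `K`, all commutative and
reduced `K_(v i)`-algebras `A i` of dimension `n` and all `X ≥ X₀` the number of the extensions of `K` of degree `n` with
Galois group `S_n`, absolute discriminant at most `X` and `K_(v i) ⊗ L ≅ A i` for all `i` is finite and at least
`X ^ (1 / 2 + 4 / (3 n) - 16 (log n)^2 / n^2)`. -/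
theorem result : ∃ n₀ : ℕ, ∀ n : ℕ, n₀ ≤ n → ∀ (K : Type) [Field K] [NumberField K] (ι : Type) [Finite ι]
    (v : ι → HeightOneSpectrum (𝓞 K)), Function.Injective v →
    ∀ (A : ι → Type) [∀ i, CommRing (A i)] [∀ i, Algebra ((v i).adicCompletion K) (A i)], (∀ i, IsReduced (A i)) →
    (∀ i, Module.finrank ((v i).adicCompletion K) (A i) = n) → ∃ X₀ : ℝ, ∀ X : ℝ, X₀ ≤ X →
      (Fields K n v A X).Finite ∧
      X ^ ((1 : ℝ) / 2 + 4 / (3 * (n : ℝ)) - 16 * (Real.log n) ^ 2 / (n : ℝ) ^ 2) ≤
        ((Fields K n v A X).ncard : ℝ) := by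
  obtain ⟨n₀, h⟩ := Pool.Agent.D0H64.WS.expo_of
    (Pool.Agent.D0H25.SFK.FAM.t_FAM Pool.Agent.D0H25.SFK.t_CNT Pool.Agent.D0H65.SFK.t_PR
      (Pool.Agent.D0H65.SFK.GM.t_GM Pool.Agent.D0H25.SFK.t_CNT)
      (Pool.Agent.D0H25.SFK.CO.t_CO Pool.Agent.D0H25.SFK.t_CNT Pool.Agent.D0H25.SFK.t_APX))
    Pool.Agent.D0H65.SFK.t_IDX Pool.Agent.D0H15.SK.t_CAS Pool.Agent.D0H25.SFK.t_PKF Pool.Agent.D0H25.SFK.t_ONE
    (Pool.Agent.D0H15.SK.smf_of Pool.Agent.D0H25.SFK.t_CNT)
  refine ⟨max n₀ 4, fun n hn K _ _ ι _ v hinj A _ _ hA hd => ?_⟩
  exact h n (le_trans (le_max_left _ _) hn) K (Pool.Agent.D0H19.SM.Om v A)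
    (Pool.Agent.D0H19.SM.dat Pool.Agent.D0H30.SM.t_SN2K Pool.Agent.D0H19.SM.t_NEARK Pool.Agent.D0H51.SM.t_TRZK
      Pool.Agent.D0H41.SM2.t_CLSK Pool.Agent.D0H19.SM.t_TENK Pool.Agent.D0H10.SL.t_PRIM K n
      (le_trans (le_max_right _ _) hn) v hinj A hA hd)

end Pool.Agent.Results.MP_bf81c2_nt.RelativeCompletions
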