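import Pool.Agent.D0H15.SK.Final

/-!
# Many extensions of degree `n` of every number field

There is `n₀` such that for all `n ≥ n₀`, ALL number fields `K` and all `m ≥ 1` the number of the extensions
of degree `m n` of `K` (inside an algebraic closure) whose absolute discriminant is at most `X` is at least

  `X ^ (1 / 2 + 4 / (3 n) - 16 (log n)^2 / n^2)`   for all `X ≥ X₀(m, n, K)`,

and for `m = 1` this many of them have Galois group `S_n`. The conjecture is `c X`. (For an `N` with a small
prime divisor better bounds are known, see below; the theorem is new for `n = N`, group `S_n`, all `n ≥ n₀`,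
and for the count of all extensions of degree `N` if all prime divisors of `N` are at least `n₀`: take
`n` = the smallest one.)

Known before: over `K = ℚ`, for the group `S_n`, `1 / 2 + 1 / n` and `1 / 2 + 1 / (n - 1)` (Bhargava, Shankar,
Wang) and, for large `n`, `MP_af4c59_nt.SymmetricGroupLowerBound` (the case `K = ℚ`, `m = 1` of the present
theorem). Over a general `K`: `1 / 2 + 1 / n ^ 2` (Ellenberg, Venkatesh 2006), and `1 / 2 + 1 / n` for odd `n`
(starting results `MP_af4c59_nt.SymmetricGroupOddDegree`, `MP_a3214d_nt.WreathSymmetricLowerBound`).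

The proof, `d = [K : ℚ]`. Let `k = ⌊n / 2⌋`, `Y = V ^ 2`, and let `𝔯` be a prime ideal of `K` whose norm is a
prime number `r` of size `V ^ (d k (n + 1 - k))` (prime ideal theorem). For at least half of the residues `m`
modulo `r` the lattice of the polynomials `g` over `𝓞 K` of degree `< k` with `g(m) ∈ 𝔯` contains `k`
polynomials, linearly independent over `K`, such that all conjugates of the coefficient of `x ^ j` are at
most `c V ^ (n - 2 j)`. Their products span the space of the polynomials of degree `≤ 2 k - 2` and satisfy
`b(m) ∈ 𝔯 ^ 2`, `b'(m) ∈ 𝔯`. Hence there are as many monic `f` over `𝓞 K` of height `Y`, without term of degree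
`n - 1`, in a fixed class modulo `q` (which forces the Galois group `S_n`), with `f(m) ∈ 𝔯 ^ 2` and
`f'(m) ∈ 𝔯`, as one expects. For these the elements `c (θ - m) h(θ - m)`, `c ∈ 𝔯⁻¹`, are integral, where
`f(x + m) = x ^ 2 h(x) + f'(m) x + f(m)`; so the absolute discriminant of `K(θ)` is at most
`C Y ^ (d n (n - 1)) / r ^ 2`.

Multiplicities: an extension `L / K` of degree `n` with Galois group `S_n` and `J + 1` integers of size
`≪ Y` which are linearly independent over `K` (among them `1`) is spanned over `K` by the monomials of
degree `≤ c` in them as soon as `c J + 1 ≥ n` (any `J + 1` conjugates impose independent conditions), so its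
discriminant is at most `Y ^ (2 d n c)`, and by the upper bound for the number of all extensions (starting
result `MP_bf81c2_nt.LinnikExponent`) there are few such `L` if `J` is larger than `16 (log n)^2`. In the
other `L` the `θ` lie in a `K`-space of dimension `≤ J`, and two different `θ` differ by more than `V` in some
conjugate, unless `L` contains an integer outside `K` of size `≤ V`, and there are few such `L`. So `L`
contains at most `O(V ^ (d J))` of the `θ`. For `m > 1` one counts the extensions of degree `n` of one fixed
extension of degree `m` of `K`.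

Project SFK (the version over number fields of project SF of helper41): helper15 (plan, ROOT, TRZ, CAS, SMF,
VER, EXP, assembly), helper25 (CNT, APX, CO, FAM, PKF, ONE), helper42 (SN), helper65 (PR, GM, IDX); many files
are adapted from project SF (helper41, helper87, helper42, helper52, helper15).
-/

set_option autoImplicit false

namespace Pool.Agent.Results.MP_bf81c2_nt.SymmetricExtensions

/-- The extensions of degree `N` of the number field `K` inside the algebraic closure of `K` whose
absolute discriminant has absolute value at most `X`. -/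
def Extensions (K : Type) [Field K] [NumberField K] (N : ℕ) (X : ℝ) :
    Set (IntermediateField K (AlgebraicClosure K)) :=
  {L | Module.finrank K L = N ∧
    ∃ h : NumberField L, ((|@NumberField.discr L _ h| : ℤ) : ℝ) ≤ X}

/-- Those among them for which the Galois group of `K` acts on the set of the embeddings of `L` over `K`
as the full symmetric group. -/
def SnExtensions (K : Type) [Field K] [NumberField K] (N : ℕ) (X : ℝ) :
    Set (IntermediateField K (AlgebraicClosure K)) :=
  {L | L ∈ Extensions K N X ∧
    ∀ τ : Equiv.Perm (L →ₐ[K] AlgebraicClosure K),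
      ∃ σ : AlgebraicClosure K ≃ₐ[K] AlgebraicClosure K,
        ∀ φ : L →ₐ[K] AlgebraicClosure K, τ φ = σ.toAlgHom.comp φ}

/-- For all `n ≥ n₀`, all number fields `K` and all `m ≥ 1` the number of the extensions of degree `m n`
of `K` with absolute discriminant at most `X` is finite and at least
`X ^ (1 / 2 + 4 / (3 n) - 16 (log n)^2 / n^2)` for all large `X`; for `m = 1` already the number of those
with Galois group `S_n` is at least this. -/
theorem result : ∃ n₀ : ℕ, ∀ n : ℕ, n₀ ≤ n → ∀ (K : Type) [Field K] [NumberField K] (m : ℕ), 1 ≤ m →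
    ∃ X₀ : ℝ, ∀ X : ℝ, X₀ ≤ X → (Extensions K (m * n) X).Finite ∧
      X ^ ((1 : ℝ) / 2 + 4 / (3 * (n : ℝ)) - 16 * (Real.log n) ^ 2 / (n : ℝ) ^ 2) ≤
        ((Extensions K (m * n) X).ncard : ℝ) ∧
      (m = 1 →
        X ^ ((1 : ℝ) / 2 + 4 / (3 * (n : ℝ)) - 16 * (Real.log n) ^ 2 / (n : ℝ) ^ 2) ≤
          ((SnExtensions K n X).ncard : ℝ)) := by
  obtain ⟨n₀, h⟩ := Pool.Agent.D0H15.SK.final
  refine ⟨n₀, fun n hn K _ _ m hm => ?_⟩
  obtain ⟨⟨X₁, h1⟩, h2⟩ := h n hn K
  obtain ⟨X₂, h3⟩ := h2 m hm
  refine ⟨max X₁ X₂, fun X hX => ?_⟩
  obtain ⟨-, h4⟩ := h1 X ((le_max_left _ _).trans hX)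
  obtain ⟨h5, h6⟩ := h3 X ((le_max_right _ _).trans hX)
  refine ⟨h5, h6, fun _ => h4.trans (le_of_eq ?_)⟩
  have e : Pool.Agent.D0H15.SK.SymF K n X = SnExtensions K n X := by
    ext L
    exact ⟨fun h => ⟨⟨h.1, h.2.1⟩, h.2.2⟩, fun h => ⟨h.1.1, h.1.2, h.2⟩⟩
  rw [e]

end Pool.Agent.Results.MP_bf81c2_nt.SymmetricExtensions
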